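import Mathlib

/-! The symmetric cocycle lemma modulo a prime. -/

namespace Pool.Agent.MP_826def_gt.PG

open Finset

variable {R : Type*} [CommRing R] {S : AddSubgroup R} {p : ℕ}

theorem nat_mem {x : R} (h : x ∈ S) (n : ℕ) : (n : R) * x ∈ S := by
  rw [← nsmul_eq_mul]
  exact S.nsmul_mem h n

theorem cong_mem (hS : ∀ x, (p : R) * x ∈ S) {m n : ℕ} (h : m ≡ n [MOD p]) (x : R) :
    (m : R) * x - (n : R) * x ∈ S := by
  obtain ⟨t, ht⟩ := h.symm.dvd
  have e : (m : R) - n = p * (t : R) := by exact_mod_cast congrArg (Int.cast : ℤ → R) ht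
  rw [← sub_mul, e, mul_assoc]
  exact hS _

theorem of_unit (hp : p.Prime) (hS : ∀ x, (p : R) * x ∈ S) {n : ℕ} (hn : ¬ p ∣ n) {x : R}
    (h : (n : R) * x ∈ S) : x ∈ S := by
  obtain ⟨t, -, ht⟩ := Nat.exists_mul_mod_eq_one_of_coprime
    ((Nat.Prime.coprime_iff_not_dvd hp).2 hn).symm hp.one_lt
  have h1 : n * t ≡ 1 [MOD p] := by
    rw [Nat.ModEq, ht, Nat.mod_eq_of_lt hp.one_lt]
  have h2 := cong_mem hS h1 x
  have h3 := S.sub_mem (nat_mem h t) h2
  rwa [show (t : R) * (n * x) - (((n * t : ℕ) : R) * x - ((1 : ℕ) : R) * x) = x by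
    push_cast; ring] at h3

/-- The relations satisfied by the top coefficients. -/
structure Coc (S : AddSubgroup R) (m : ℕ) (al : ℕ → R) : Prop where
  symm : ∀ i ≤ m, al i = al (m - i)
  rel : ∀ i s, 1 ≤ i → i < s → s < m →
    (s.choose i : R) * al s - ((m - i).choose (s - i) : R) * al i ∈ S
  zero : al 0 ∈ S

theorem Coc.one {m : ℕ} {al : ℕ → R} (h : Coc S m al) (h1 : al 1 ∈ S) (s : ℕ) (hs : s ≤ m) :
    (s : R) * al s ∈ S := by
  rcases hs.eq_or_lt with rfl | hs
  · rw [h.symm s le_rfl, Nat.sub_self]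
    exact nat_mem h.zero _
  rcases Nat.lt_or_ge 1 s with a | a
  · have := S.add_mem (h.rel 1 s le_rfl a hs) (nat_mem h1 ((m - 1).choose (s - 1)))
    rwa [sub_add_cancel, Nat.choose_one_right] at this
  · interval_cases s
    exacts [nat_mem h.zero _, nat_mem h1 _]

/-- One coefficient detects a cocycle. -/
theorem Coc.det (hp : p.Prime) (hS : ∀ x, (p : R) * x ∈ S) {n : ℕ} (hn : ¬ p ∣ n ∨ n = p)
    (h2 : 2 ≤ n) (k : ℕ) : ∀ al : ℕ → R, Coc S (p ^ k * n) al → al (p ^ k) ∈ S →
      ∀ i ≤ p ^ k * n, al i ∈ S := by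
  have : Fact p.Prime := ⟨hp⟩
  have p2 := hp.two_le
  induction k with
  | zero =>
    intro al h h1 i hi
    rw [pow_zero, one_mul] at h hi
    rw [pow_zero] at h1
    rcases hn with hn | rfl
    · refine of_unit hp hS hn ?_
      have a := h.one h1 (n - i) (by omega)
      rw [← h.symm i hi] at a
      have := S.add_mem (h.one h1 i hi) a
      rwa [← add_mul, ← Nat.cast_add, Nat.add_sub_cancel' hi] at this
    · rcases hi.eq_or_lt with rfl | hi
      · rw [h.symm i le_rfl, Nat.sub_self]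
        exact h.zero
      rcases Nat.eq_zero_or_pos i with rfl | h0
      · exact h.zero
      · exact of_unit hp hS (Nat.not_dvd_of_pos_of_lt h0 hi) (h.one h1 i hi.le)
  | succ k ih =>
    intro al h h1 i hi
    obtain ⟨m, hm⟩ : ∃ m, p ^ k * n = m + 2 :=
      ⟨p ^ k * n - 2, by have := Nat.mul_le_mul (Nat.one_le_pow k p hp.pos) h2; omega⟩
    have e : p ^ (k + 1) * n = p * (m + 2) := by rw [← hm]; ring
    rw [e] at h hi
    rw [hm] at ih
    by_cases hd : p ∣ i
    · obtain ⟨i, rfl⟩ := hd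
      refine ih (fun j => al (p * j)) ⟨fun j hj => ?_, fun j s a b c => ?_, by simpa using h.zero⟩
        (by rwa [pow_succ'] at h1) i (Nat.le_of_mul_le_mul_left hi hp.pos)
      · rw [h.symm _ (Nat.mul_le_mul_left p hj), Nat.mul_sub]
      · have a1 := h.rel (p * j) (p * s) (Nat.mul_pos hp.pos a) (Nat.mul_lt_mul_of_pos_left b hp.pos)
          (Nat.mul_lt_mul_of_pos_left c hp.pos)
        rw [← Nat.mul_sub, ← Nat.mul_sub] at a1
        have a2 := cong_mem hS (Choose.choose_mul_mul_modEq_choose_nat (p := p) (a := s) (b := j))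
          (al (p * s))
        have a3 := cong_mem hS (Choose.choose_mul_mul_modEq_choose_nat (p := p) (a := m + 2 - j)
          (b := s - j)) (al (p * j))
        have := S.add_mem (S.sub_mem a1 a2) a3
        rwa [show ∀ a b c d : R, a - b - (a - c) + (b - d) = c - d from fun _ _ _ _ => by ring] at this
    · refine of_unit hp hS hd (h.one ?_ i hi)
      have a1 := h.rel 1 p le_rfl hp.one_lt (by nlinarith)
      have a2 := Choose.choose_modEq_choose_mod_mul_choose_div_nat (n := p * (m + 2) - 1)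
        (k := p - 1) (p := p)
      have e1 : p * (m + 2) - 1 = p - 1 + p * (m + 1) := by
        rw [show p * (m + 2) = p + p * (m + 1) by ring]
        omega
      have e2 : (p - 1) % p = p - 1 := Nat.mod_eq_of_lt (by omega)
      have e3 : (p - 1) / p = 0 := Nat.div_eq_of_lt (by omega)
      rw [e3, Nat.choose_zero_right, mul_one, e2] at a2
      conv_rhs at a2 => rw [e1, Nat.add_mul_mod_self_left, e2, Nat.choose_self]
      rw [Nat.choose_one_right] at a1
      have := S.sub_mem (S.sub_mem (hS (al p)) a1) (cong_mem hS a2 (al 1))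
      rwa [show ∀ a b c : R, a - (a - b) - (b - c) = c from fun _ _ _ => by ring, Nat.cast_one,
        one_mul] at this

/-- The divided binomial coefficients. -/
def dv (p m i : ℕ) : ℕ := if i = 0 ∨ i = m then 0 else m.choose i / p

theorem dv_mul (hp : p.Prime) (k i : ℕ) (h0 : i ≠ 0) (h1 : i ≠ p ^ k) :
    p * dv p (p ^ k) i = (p ^ k).choose i := by
  rw [dv, if_neg (by tauto), Nat.mul_div_cancel' (hp.dvd_choose_pow h0 h1)]

theorem dv_sum (hp : p.Prime) (k : ℕ) :
    ∑ l ∈ range p, ∑ i ∈ range (p ^ k + 1), dv p (p ^ k) i * l ^ i + 1 = p ^ (p ^ k - 1) := by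
  have hm : 0 < p ^ k := pow_pos hp.pos k
  have a : ∀ l : ℕ, p * ∑ i ∈ range (p ^ k + 1), dv p (p ^ k) i * l ^ i + l ^ p ^ k + 1 =
      (l + 1) ^ p ^ k := by
    intro l
    obtain ⟨m, hm'⟩ : ∃ m, p ^ k = m + 1 := ⟨p ^ k - 1, by omega⟩
    have b := dv_mul hp k
    rw [hm'] at b ⊢
    rw [add_pow, sum_range_succ, sum_range_succ', sum_range_succ, sum_range_succ']
    simp only [one_pow, mul_one, Nat.cast_id, Nat.choose_self, Nat.choose_zero_right, pow_zero]
    rw [show dv p (m + 1) 0 = 0 by simp [dv], show dv p (m + 1) (m + 1) = 0 by simp [dv], zero_mul,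
      add_zero, add_zero, mul_sum, sum_congr rfl fun i hi => by
        rw [← mul_assoc, b _ (by omega) (by have := mem_range.1 hi; omega), mul_comm]]
    ring
  have b : ∀ n : ℕ, p * ∑ l ∈ range n, ∑ i ∈ range (p ^ k + 1), dv p (p ^ k) i * l ^ i + n =
      n ^ p ^ k := by
    intro n
    induction n with
    | zero => rw [zero_pow hm.ne', sum_range_zero, mul_zero, add_zero]
    | succ n ih =>
      rw [sum_range_succ, ← a, ← ih]
      ring
  apply Nat.eq_of_mul_eq_mul_left hp.pos
  rw [mul_add, mul_one, b, ← pow_succ', Nat.sub_add_cancel hm]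

/-- In prime power degree the top part of the `p`-series detects a cocycle. -/
theorem Coc.pow (hp : p.Prime) (hS : ∀ x, (p : R) * x ∈ S) (k : ℕ) {al : ℕ → R}
    (h : Coc S (p ^ (k + 1)) al)
    (hx : ∑ l ∈ range p, ∑ i ∈ range (p ^ (k + 1) + 1), al i * (l : R) ^ i ∈ S) :
    ∀ i ≤ p ^ (k + 1), al i ∈ S := by
  have D := Coc.det hp hS (Or.inr rfl) hp.two_le k
  rw [← pow_succ] at D
  refine D al h ?_
  have hk : p ^ k < p ^ (k + 1) := Nat.pow_lt_pow_right hp.one_lt (by omega)
  have hb := D (fun i => (dv p (p ^ (k + 1)) (p ^ k) : R) * al i -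
      (dv p (p ^ (k + 1)) i : R) * al (p ^ k)) ⟨fun i hi => ?_, fun i s a b c => ?_, ?_⟩
    (by simp only [sub_self]; exact S.zero_mem)
  · have a1 : ∑ l ∈ range p, ∑ i ∈ range (p ^ (k + 1) + 1),
        ((dv p (p ^ (k + 1)) (p ^ k) : R) * al i - (dv p (p ^ (k + 1)) i : R) * al (p ^ k)) *
          (l : R) ^ i ∈ S := S.sum_mem fun l _ => S.sum_mem fun i hi => by
      rw [mul_comm, ← Nat.cast_pow]
      exact nat_mem (hb i (by have := mem_range.1 hi; omega)) _
    have a2 := S.sub_mem (nat_mem hx (dv p (p ^ (k + 1)) (p ^ k))) a1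
    refine of_unit hp hS (n := ∑ l ∈ range p, ∑ i ∈ range (p ^ (k + 1) + 1),
      dv p (p ^ (k + 1)) i * l ^ i) (fun hd => ?_) ?_
    · have a3 : p ∣ p ^ (p ^ (k + 1) - 1) :=
        dvd_pow_self p (by have := Nat.one_le_pow k p hp.pos; omega)
      rw [← dv_sum hp] at a3
      exact hp.one_lt.ne' (Nat.dvd_one.1 ((Nat.dvd_add_right hd).1 a3))
    · refine (congrArg (· ∈ S) ?_).mp a2
      push_cast
      simp only [mul_sum, sum_mul, ← sum_sub_distrib]
      exact sum_congr rfl fun l _ => sum_congr rfl fun i _ => by ring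
  · have : dv p (p ^ (k + 1)) (p ^ (k + 1) - i) = dv p (p ^ (k + 1)) i := by
      unfold dv
      rw [Nat.choose_symm hi]
      exact if_congr (by omega) rfl rfl
    simp only [this, ← h.symm i hi]
  · have e : s.choose i * dv p (p ^ (k + 1)) s =
        (p ^ (k + 1) - i).choose (s - i) * dv p (p ^ (k + 1)) i := by
      apply Nat.eq_of_mul_eq_mul_left hp.pos
      rw [mul_left_comm, dv_mul hp _ _ (by omega) (by omega), mul_left_comm,
        dv_mul hp _ _ (by omega) (by omega), mul_comm, Nat.choose_mul b.le, mul_comm]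
    have e' : (s.choose i : R) * dv p (p ^ (k + 1)) s =
        ((p ^ (k + 1) - i).choose (s - i) : R) * dv p (p ^ (k + 1)) i := by exact_mod_cast congrArg _ e
    refine (congrArg (· ∈ S) ?_).mp (nat_mem (h.rel i s a b c) (dv p (p ^ (k + 1)) (p ^ k)))
    linear_combination al (p ^ k) * e'
  · rw [show dv p (p ^ (k + 1)) 0 = 0 by simp [dv], Nat.cast_zero, zero_mul, sub_zero]
    exact nat_mem h.zero _

end Pool.Agent.MP_826def_gt.PG
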