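import Pool.Agent.MP_826def_gt.PG.Gen
import Pool.Agent.MP_826def_gt.PP.Alg

/-! The structure of the coefficient ring modulo a prime. -/

namespace Pool.Agent.MP_826def_gt.PG

open MU PP Set

noncomputable section

theorem sG (n : S_Nm) : PP.S_G := by
  intro p hp U _ a π θ hF hπ hd hC tf hθ lin r
  have us : US a := ⟨hF.unit, hF.symm⟩
  have h2 : ∀ k, 1 ≤ k → 2 ≤ p ^ k := fun k hk => hp.two_le.trans (Nat.le_self_pow (by omega) p)
  refine regG hp θ hF hπ hd hC tf hθ lin ?_ (fun k hk T hT => ?_) (fun k hk => ?_) r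
  · rw [vp, pow_zero, n.wn_one us]
  · have e : top p a (p ^ k) = ∑ s ∈ Finset.range p, ∑ i ∈ Finset.range (p ^ k + 1),
        (s : U) ^ (p ^ k - i) * a i (p ^ k - i) := by
      refine Finset.sum_congr rfl fun s _ => ?_
      rw [← Finset.sum_range_reflect]
      refine Finset.sum_congr rfl fun i hi => ?_
      have := Finset.mem_range.1 hi
      rw [Nat.add_sub_cancel, Nat.sub_sub_self (by omega), hF.symm, mul_comm]
    rw [e]
    exact n.step T (p ^ k) us (h2 k hk) hT p
  · let D : ℤ → AddSubgroup U := fun d =>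
      if d ≤ 0 then (π (-d).toNat - AddMonoidHom.id U).ker else ⊥
    have hD : ∀ (d : ℤ) (x : U), d ≤ 0 → (x ∈ D d ↔ π (-d).toNat x = x) := fun d x h => by
      simp only [D, if_pos h, AddMonoidHom.mem_ker, AddMonoidHom.sub_apply, AddMonoidHom.id_apply,
        sub_eq_zero]
    have hD' : ∀ (d : ℤ) (x : U), ¬ d ≤ 0 → x ∈ D d → x = 0 := fun d x h hx => by
      simpa only [D, if_neg h, AddSubgroup.mem_bot] using hx
    have h := n.grad D us ((hD 0 1 le_rfl).2 hπ.one) (fun d e x y hx hy => ?_) (fun i j => ?_) p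
      (p ^ k)
    · have b := h2 k hk
      rw [hD _ _ (by omega), show (-(1 - ((p ^ k : ℕ) : ℤ))).toNat = p ^ k - 1 by omega] at h
      exact h
    · by_cases h1 : d ≤ 0
      · by_cases h3 : e ≤ 0
        · rw [hD _ _ (by omega), show (-(d + e)).toNat = (-d).toNat + (-e).toNat by omega]
          exact hπ.mul _ _ _ _ ((hD _ _ h1).1 hx) ((hD _ _ h3).1 hy)
        · rw [hD' _ _ h3 hy, mul_zero]
          exact zero_mem _
      · rw [hD' _ _ h1 hx, zero_mul]
        exact zero_mem _
    · rcases Nat.eq_zero_or_pos (i + j) with h0 | h0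
      · obtain ⟨rfl, rfl⟩ := Nat.add_eq_zero_iff.1 h0
        rw [hF.unit, if_neg (by omega)]
        exact zero_mem _
      · exact (hD _ _ (by omega)).2 (hd _ _ _ (by omega))

end

end Pool.Agent.MP_826def_gt.PG
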