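import Pool.Agent.MP_826def_gt.PG.Coc
import Pool.Agent.MP_826def_gt.BG.Ass
import Pool.Agent.MP_826def_gt.PP.CoreP

/-! The coefficient ring modulo a prime is generated by one element in each weight. -/

namespace Pool.Agent.MP_826def_gt.PG

open MU BG MvPolynomial Set

noncomputable section

variable {U : Type 1} [CommRing U] {p : ℕ} {a : ℕ → ℕ → U} {v : ℕ → U}

/-- The top part of the coefficient of `T ^ m` in the `p`-series. -/
def top (p : ℕ) (a : ℕ → ℕ → U) (m : ℕ) : U :=
  ∑ l ∈ Finset.range p, ∑ i ∈ Finset.range (m + 1), a i (m - i) * (l : U) ^ i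

/-- `v k` is the top part modulo the lower coefficients. -/
def IsTop (p : ℕ) (a : ℕ → ℕ → U) (v : ℕ → U) : Prop :=
  ∀ k, 1 ≤ k → ∀ T : Subring U, (∀ i j, i + j < p ^ k → a i j ∈ T) → v k - top p a (p ^ k) ∈ T

/-- The generator of weight `n + 1`. -/
def xg (p : ℕ) (a : ℕ → ℕ → U) (v : ℕ → U) (n : ℕ) : U :=
  if n + 2 = p ^ padicValNat p (n + 2) then v (padicValNat p (n + 2))
  else a (p ^ padicValNat p (n + 2)) (n + 2 - p ^ padicValNat p (n + 2))

theorem gen_mem (hp : p.Prime) (h : FG a) (hv : IsTop p a v) {T : Subring U}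
    (hT : ∀ x, (p : U) * x ∈ T) (hx : ∀ n, xg p a v n ∈ T) (m : ℕ) :
    ∀ i j, i + j = m → a i j ∈ T := by
  have : Fact p.Prime := ⟨hp⟩
  have h0 : ∀ i, a i 0 ∈ T := fun i => by
    rw [h.unit]
    split_ifs
    exacts [T.one_mem, T.zero_mem]
  induction m using Nat.strong_induction_on with
  | _ m ih =>
    by_cases hm : m < 2
    · intro i j hij
      rcases Nat.eq_zero_or_pos j with rfl | hj
      · exact h0 i
      · obtain rfl : i = 0 := by omega
        exact h.symm 0 j ▸ h0 j
    obtain ⟨n, rfl⟩ : ∃ n, m = n + 2 := ⟨m - 2, by omega⟩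
    have hc : Coc T.toAddSubgroup (n + 2) fun i => a i (n + 2 - i) := by
      refine ⟨fun i hi => ?_, fun i s a1 a2 a3 => ?_, h.symm 0 _ ▸ h0 _⟩
      · rw [h.symm, Nat.sub_sub_self hi]
      · have := XAss.rel h (T := T) (i := i) (j := s - i) (k := n + 2 - s) a1 (by omega) (by omega)
          fun p q hpq => ih (p + q) (by omega) p q rfl
        rwa [show i + (s - i) = s by omega, show s - i + (n + 2 - s) = n + 2 - i by omega,
          h.symm _ i] at this
    suffices ∀ i ≤ n + 2, a i (n + 2 - i) ∈ T.toAddSubgroup from fun i j hij => by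
      have := this i (by omega)
      rwa [show n + 2 - i = j by omega] at this
    have b3 := hx n
    unfold xg at b3
    obtain ⟨c, hc1⟩ := pow_padicValNat_dvd (p := p) (n := n + 2)
    have hc2 := pow_succ_padicValNat_not_dvd (p := p) (n := n + 2) (by omega)
    generalize padicValNat p (n + 2) = k at b3 hc1 hc2
    split_ifs at b3 with hk
    · obtain ⟨k, rfl⟩ : ∃ k', k = k' + 1 := ⟨k - 1, by rcases k with _ | k <;> simp at hk ⊢⟩
      have b4 := hv (k + 1) (by omega) T fun i j hij => ih (i + j) (by omega) i j rfl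
      rw [hk] at hc ⊢
      refine hc.pow hp hT k ?_
      have := T.sub_mem b3 b4
      rwa [sub_sub_cancel] at this
    · have c1 : ¬ p ∣ c := fun hd => hc2 (by
        rw [hc1, pow_succ]
        exact Nat.mul_dvd_mul_left _ hd)
      have c2 : 2 ≤ c := by
        rcases c with _ | _ | c
        · simp at hc1
        · exact absurd (by simpa using hc1) hk
        · omega
      rw [hc1] at hc b3 ⊢
      exact Coc.det hp hT (Or.inl c1) c2 k _ hc b3

theorem gen (hp : p.Prime) (h : FG a) (hv : IsTop p a v)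
    (hU : ∀ u : U, ∃ c ∈ Subring.closure (range fun q : ℕ × ℕ => a q.1 q.2), ∃ y, u = c + p * y)
    (u : U) : ∃ (P : MvPolynomial ℕ ℤ) (y : U), u = aeval (xg p a v) P + p * y := by
  obtain ⟨c, hc, y, rfl⟩ := hU u
  let φ := Ideal.Quotient.mk (Ideal.span {(p : U)})
  let T := (φ.comp (aeval (R := ℤ) (xg p a v)).toRingHom).range.comap φ
  have h5 : Subring.closure (range fun q : ℕ × ℕ => a q.1 q.2) ≤ T :=
    Subring.closure_le.2 (by
      rintro _ ⟨q, rfl⟩
      refine gen_mem hp h hv (T := T) (fun x => ⟨0, ?_⟩) (fun n => ⟨X n, by simp⟩) _ q.1 q.2 rfl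
      rw [map_zero]
      exact (Ideal.Quotient.eq_zero_iff_mem.2
        (Ideal.mul_mem_right _ _ (Ideal.mem_span_singleton_self _))).symm)
  obtain ⟨P, hP⟩ := h5 hc
  obtain ⟨z, hz⟩ := Ideal.mem_span_singleton.1 (Ideal.Quotient.eq.1 hP.symm)
  refine ⟨P, y + z, ?_⟩
  have : c = aeval (xg p a v) P + p * z := sub_eq_iff_eq_add'.1 hz
  rw [this]
  ring

/-- The linear term of `v k` is not zero. -/
theorem lin_v (hp : p.Prime) (h : FG a) (hv : IsTop p a v) {π : ℕ → U →+ U}
    {θ : U →+* MvPolynomial ℕ ℤ} (hd : ∀ i j d, i + j = d + 1 → π d (a i j) = a i j)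
    (hθ : ∀ d u, π d u = u → (θ u).IsWeightedHomogeneous (fun n => n + 1) d)
    (lin : ∀ i j n, 1 ≤ i → 1 ≤ j → i + j = n + 2 →
      (θ (a i j)).coeff (Finsupp.single n 1) = ((n + 2).choose i : ℤ))
    {n k : ℕ} (hk : n + 2 = p ^ k) : (θ (v k)).coeff (Finsupp.single n 1) ≠ 0 := by
  have k1 : 1 ≤ k := by rcases k with _ | k <;> simp at hk ⊢
  have h1 := hv k k1 ((supported ℤ (Iio n)).toSubring.comap θ) fun i j hij => by
    show θ (a i j) ∈ supported ℤ (Iio n)
    rcases Nat.eq_zero_or_pos (i + j) with h0 | h0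
    · obtain ⟨rfl, rfl⟩ := Nat.add_eq_zero_iff.1 h0
      rw [h.unit, if_neg (by omega), map_zero]
      exact zero_mem _
    · rw [mem_supported]
      intro l hl
      obtain ⟨d, hd', hl'⟩ := (mem_vars_iff_mem_support l).1 hl
      have b1 := hθ _ _ (hd i j (i + j - 1) (by omega)) (mem_support_iff.1 hd')
      have b2 := Finsupp.le_weight_of_ne_zero' (fun n : ℕ => n + 1) (Finsupp.mem_support_iff.1 hl')
      rw [b1] at b2
      have b3 : l + 1 ≤ i + j - 1 := b2
      show l < n
      omega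
  have h2 : (θ (v k - top p a (p ^ k))).coeff (Finsupp.single n 1) = 0 := by
    by_contra hne
    have h3 : θ (v k - top p a (p ^ k)) ∈ supported ℤ (Iio n) := h1
    rw [mem_supported] at h3
    exact lt_irrefl n (h3 ((mem_vars_iff_mem_support n).2 ⟨_, mem_support_iff.2 hne, by simp⟩))
  rw [map_sub, coeff_sub, sub_eq_zero] at h2
  have e : ∀ l i : ℕ, (θ (a i (n + 2 - i) * (l : U) ^ i)).coeff (Finsupp.single n 1) =
      (l : ℤ) ^ i * (θ (a i (n + 2 - i))).coeff (Finsupp.single n 1) := fun l i => by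
    rw [map_mul, map_pow, map_natCast, mul_comm, ← map_natCast (C : ℤ →+* MvPolynomial ℕ ℤ),
      ← map_pow, coeff_C_mul]
  have nn : ∀ i ∈ Finset.range (n + 2 + 1),
      0 ≤ (θ (a i (n + 2 - i))).coeff (Finsupp.single n 1) := fun i hi => by
    have := Finset.mem_range.1 hi
    rcases Nat.eq_zero_or_pos i with rfl | i0
    · rw [h.symm, h.unit, if_neg (by omega), map_zero, coeff_zero]
    rcases Nat.eq_zero_or_pos (n + 2 - i) with j0 | j0
    · rw [j0, h.unit, if_neg (by omega), map_zero, coeff_zero]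
    · rw [lin _ _ n i0 j0 (by omega)]
      positivity
  rw [h2, ← hk, top, map_sum, coeff_sum]
  simp only [map_sum, coeff_sum, e]
  refine (Finset.sum_pos' (fun l _ => Finset.sum_nonneg fun i hi =>
    mul_nonneg (by positivity) (nn i hi)) ⟨1, Finset.mem_range.2 hp.one_lt, ?_⟩).ne'
  refine Finset.sum_pos' (fun i hi => mul_nonneg (by positivity) (nn i hi))
    ⟨1, Finset.mem_range.2 (by omega), ?_⟩
  rw [lin _ _ n le_rfl (by omega) (by omega)]
  simp only [Nat.cast_one, one_pow, one_mul, Nat.choose_one_right]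
  positivity

/-- The sequence `p, v 1, v 2, …` is regular. -/
theorem regG (hp : p.Prime) {π : ℕ → U →+ U} (θ : U →+* MvPolynomial ℕ ℤ) (hF : FG a) (hπ : Grd π)
    (hd : ∀ i j d, i + j = d + 1 → π d (a i j) = a i j)
    (hC : ∀ u : U, ∃ c ∈ Subring.closure (range fun q : ℕ × ℕ => a q.1 q.2), ∃ y, u = c + p * y)
    (tf : ∀ u : U, p * u = 0 → u = 0)
    (hθ : ∀ d u, π d u = u → (θ u).IsWeightedHomogeneous (fun n => n + 1) d)
    (lin : ∀ i j n, 1 ≤ i → 1 ≤ j → i + j = n + 2 →
      (θ (a i j)).coeff (Finsupp.single n 1) = ((n + 2).choose i : ℤ))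
    (v0 : v 0 = p) (hv : IsTop p a v) (vd : ∀ k, 1 ≤ k → π (p ^ k - 1) (v k) = v k) (r : ℕ) :
    Reg v r U ∧ (1 : U) ∉ Ideal.span (v '' Iio r) := by
  have : Fact p.Prime := ⟨hp⟩
  have hle : ∀ n, p ^ padicValNat p (n + 2) ≤ n + 2 := fun n =>
    Nat.le_of_dvd (by omega) pow_padicValNat_dvd
  have h2 : ∀ k, 1 ≤ k → 2 ≤ p ^ k := fun k hk => hp.two_le.trans (Nat.le_self_pow (by omega) p)
  refine PP.coreP (x := xg p a v) p hp θ v (fun k => p ^ k - 2) hπ (fun n => ?_)
    (gen hp hF hv hC) tf hθ (fun n => ?_) v0 (fun k hk => ?_) (fun j k hj hjk => ?_) r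
  · have := hle n
    unfold xg
    split_ifs with h
    · have := vd (padicValNat p (n + 2)) (by
        generalize padicValNat p (n + 2) = k at h
        rcases k with _ | k <;> simp at h ⊢)
      rwa [← h] at this
    · exact hd _ _ _ (by omega)
  · have := hle n
    have hpos : 0 < p ^ padicValNat p (n + 2) := pow_pos hp.pos _
    unfold xg
    split_ifs with h
    · exact lin_v hp hF hv hd hθ lin h
    · rw [lin _ _ n hpos (by omega) (by omega)]
      exact_mod_cast (Nat.choose_pos this).ne'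
  · have := h2 k hk
    have e : p ^ k - 2 + 2 = p ^ k := by omega
    unfold xg
    rw [e, padicValNat.prime_pow, if_pos rfl]
  · have := h2 j hj
    have := Nat.pow_lt_pow_right hp.one_lt hjk
    omega

end

end Pool.Agent.MP_826def_gt.PG
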