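import Pool.Agent.MP_826def_gt.PP.Spec
import Pool.Agent.MP_826def_gt.BG.Reg
import Pool.Agent.MP_826def_gt.PG.G

/-!
The sequence `p, v_1, v_2, …` is regular on the coefficient ring and on the group of a point.
-/

namespace Pool.Agent.MP_826def_gt.PG

open MU Set
open BG (grd_part exists_eps sHur0)

noncomputable section

lemma reg_of_split (q : ℕ) {U N : Type 1} [CommRing U] [AddCommGroup N] [Module U N] (w : ℕ → U) (r : ℕ)
    (w0 : w 0 = q) (hU : Reg w r U) (p : N →ₗ[U] U) (i : U →ₗ[U] N) (hpi : ∀ u, p (i u) = u)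
    (inj : ∀ x, p x = 0 → q • x = 0 → x = 0) (sur : ∀ x, p x = 0 → ∃ y, x = q • y) :
    Reg w r N := by
  intro k hk x hx
  have h1 : p x ∈ Ideal.span (w '' Iio k) • (⊤ : Submodule U U) := by
    apply hU k hk
    rw [← map_smul]
    have := Submodule.mem_map_of_mem (f := p) hx
    rw [Submodule.map_smul''] at this
    exact Submodule.smul_mono le_rfl le_top this
  have h2 : i (p x) ∈ Ideal.span (w '' Iio k) • (⊤ : Submodule U N) := by
    have := Submodule.mem_map_of_mem (f := i) h1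
    rw [Submodule.map_smul''] at this
    exact Submodule.smul_mono le_rfl le_top this
  rcases Nat.eq_zero_or_pos k with rfl | hk0
  · have e : w '' Iio 0 = ∅ := by simp
    rw [e, Ideal.span_empty, Submodule.bot_smul, Submodule.mem_bot] at hx h1 ⊢
    rw [w0, Nat.cast_smul_eq_nsmul] at hx
    exact inj x h1 hx
  · obtain ⟨y, hy⟩ := sur (x - i (p x)) (by rw [map_sub, hpi, sub_self])
    have h3 : x = i (p x) + w 0 • y := by rw [w0, Nat.cast_smul_eq_nsmul, ← hy]; abel
    rw [h3]
    exact Submodule.add_mem _ h2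
      (Submodule.smul_mem_smul (Ideal.subset_span ⟨0, hk0, rfl⟩) Submodule.mem_top)

variable [Fact Core]

theorem reg (A : Api) (nm : PP.S_Nm) (qa : PP.S_QA) (gp : S_GP) (dg : S_DG) (ln : S_LN)
    (c : S_CPr) : PP.S_Reg := by
  intro a hF q hq r
  obtain ⟨ε, hε⟩ := exists_eps A gp dg
  obtain ⟨s, hs⟩ := ln
  obtain ⟨q1, q2, q3⟩ := qa a hF q hq
  have hε0 : ∀ (d : ℤ) (x : UU), IsDeg d x → d ≠ 0 → ε x = 0 := by
    intro d x hx hd
    apply dg
    rw [hε, ← hx, A.deg.proj, if_neg (Ne.symm hd)]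
  have hG := sG nm q hq UU a (fun d : ℕ => part (-(d : ℤ))) ((MvPolynomial.map ε).comp (s Unit)) hF.fg
    (grd_part A gp)
    (fun i j d h => by
      have e : (-(d : ℤ)) = 1 - i - j := by omega
      show part (-(d : ℤ)) (a i j) = a i j
      rw [e]
      exact hF.deg i j) q1 q2
    (fun d u hu α hα => by
      by_contra hne
      apply hα
      rw [RingHom.comp_apply, MvPolynomial.coeff_map]
      refine hε0 _ _ (hs.deg (-(d : ℤ)) u hu α) ?_
      omega)
    (fun i j n hi hj hij => by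
      obtain ⟨c1, c2, -⟩ := c 2 (n + 3) (n + 3) le_rfl
      have rk : ∀ l : Fin 2, ((taut (n + 3) (n + 3)).pull
          (⟨fun b => b l, continuous_apply l⟩ : C(Fin 2 → CP (n + 3) (n + 3), _))).Rk 1 :=
        fun l x => A.bun.rk_taut _ _ _
      refine sHur0 UU _ a (toU _) (xs 2 (n + 3) (n + 3)) (n + 3) (s Unit) (s _) ε hF.fg.unit
        hF.fg.symm c1 c2 (fun u => hs.nat _ u) (fun l => hs.line _ (rk l)) ?_
        (fun i j h => hε0 _ _ (hF.deg i j) (by omega)) i j n hi hj hij (by omega)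
      have e := hF.tens _ _ _ (rk 0) (rk 1) (A.bun.rk_tm _ _) (A.bun.tens_tm _ _)
      have e2 := hs.line _ (A.bun.rk_tm (⟨fun b => b 0, continuous_apply 0⟩ :
        C(Fin 2 → CP (n + 3) (n + 3), _)) ⟨fun b => b 1, continuous_apply 1⟩)
      rw [e] at e2
      exact e2) r
  refine ⟨hG.1, hG.2, ?_⟩
  have hact : ∀ u x : UU, act (toPt Unit) u x = u * x := by
    intro u x
    rw [A.act.self]
    congr 1
    exact pull_id u
  let p : Mod (toPt Unit) →ₗ[UU] UU :=
    { toFun := fun x => x.1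
      map_add' := fun _ _ => rfl
      map_smul' := fun u x => hact u x.1 }
  let i : UU →ₗ[UU] Mod (toPt Unit) :=
    { toFun := fun x => (x, 0)
      map_add' := fun _ _ => Prod.ext rfl (add_zero _).symm
      map_smul' := fun u x => Prod.ext (hact u x).symm
        (map_zero (act ((toPt Unit).comp ContinuousMap.fst) u)).symm }
  refine reg_of_split q (PP.vp a q) r
    (by rw [PP.vp, pow_zero, nm.wn_one ⟨hF.fg.unit, hF.fg.symm⟩]) hG.1 p i (fun _ => rfl)
    (fun x h1 h2 => Prod.ext h1 (q3.1 ?_)) fun x h1 => ?_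
  · exact (congrArg Prod.snd h2).trans (nsmul_zero _).symm
  · obtain ⟨y, hy⟩ := q3.2 x.2
    exact ⟨(0, y), Prod.ext (h1.trans (nsmul_zero _).symm) hy.symm⟩

end

end Pool.Agent.MP_826def_gt.PG
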