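import Pool.Agent.MP_826def_gt.BG.Fm

/-!
The multiples of a nilpotent element for a formal group law and their coefficients.
-/

namespace Pool.Agent.MP_826def_gt.PG

open MU BG Finset PowerSeries

noncomputable section

variable {U : Type 1} [CommRing U]

/-- The series `[j](T)`. -/
def ps (a : ℕ → ℕ → U) : ℕ → PowerSeries U
  | 0 => 0
  | j + 1 => mk fun m => ∑ i ∈ range (m + 1), ∑ l ∈ range (m + 1),
      a i l * coeff m (ps a j ^ i * X ^ l)

/-- The coefficient of `T ^ m` in `[j](T)`. -/
def pc (a : ℕ → ℕ → U) (j m : ℕ) : U := coeff m (ps a j)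

/-- The sequence `p, v_1, v_2, …`. -/
def vp (p : ℕ) (a : ℕ → ℕ → U) (k : ℕ) : U := pc a p (p ^ k)

/-- The multiple `[j](x)`. -/
def mul (a : ℕ → ℕ → U) : ℕ → U → U
  | 0, _ => 0
  | j + 1, x => Fm a (mul a j x) x

theorem pc_succ (a : ℕ → ℕ → U) (j m : ℕ) : pc a (j + 1) m =
    ∑ i ∈ range (m + 1), ∑ l ∈ range (m + 1), a i l * coeff m (ps a j ^ i * X ^ l) := by
  rw [pc, ps, coeff_mk]

theorem ps_map {A : Type 1} [CommRing A] (φ : U →+* A) (a : ℕ → ℕ → U) (j : ℕ) :
    ps (cf φ a) j = PowerSeries.map φ (ps a j) := by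
  induction j with
  | zero => simp [ps]
  | succ j ih =>
    ext m
    rw [ps, ps, coeff_map, coeff_mk, coeff_mk, ih, map_sum]
    refine sum_congr rfl fun i _ => ?_
    rw [map_sum]
    refine sum_congr rfl fun l _ => ?_
    rw [map_mul φ, ← coeff_map, map_mul (PowerSeries.map φ), map_pow (PowerSeries.map φ),
      map_pow (PowerSeries.map φ), map_X, cf]

theorem pc_map {A : Type 1} [CommRing A] (φ : U →+* A) (a : ℕ → ℕ → U) (j m : ℕ) :
    pc (cf φ a) j m = φ (pc a j m) := by
  rw [pc, ps_map, coeff_map, pc]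

theorem co_zero {P : PowerSeries U} (h : coeff 0 P = 0) {m i l : ℕ} (hm : m < i + l) :
    coeff m (P ^ i * X ^ l) = 0 := by
  obtain ⟨Q, rfl⟩ := X_dvd_iff.2 (coeff_zero_eq_constantCoeff_apply P ▸ h)
  rw [mul_pow, mul_right_comm, ← pow_add, coeff_X_pow_mul', if_neg (by omega)]

theorem co_top {P : PowerSeries U} (h : coeff 0 P = 0) (i l : ℕ) :
    coeff (i + l) (P ^ i * X ^ l) = coeff 1 P ^ i := by
  obtain ⟨Q, rfl⟩ := X_dvd_iff.2 (coeff_zero_eq_constantCoeff_apply P ▸ h)
  rw [mul_pow, mul_right_comm, ← pow_add, coeff_X_pow_mul', if_pos le_rfl, Nat.sub_self,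
    coeff_succ_X_mul, coeff_zero_eq_constantCoeff_apply, map_pow, coeff_zero_eq_constantCoeff_apply]

variable {a : ℕ → ℕ → U}

theorem pc_zero (hu : ∀ i, a i 0 = if i = 1 then 1 else 0) (j : ℕ) : pc a j 0 = 0 := by
  cases j with
  | zero => simp [pc, ps]
  | succ j => simp [pc_succ, hu]

theorem pc_one (hu : ∀ i, a i 0 = if i = 1 then 1 else 0) (hs : ∀ i j, a i j = a j i) (j : ℕ) :
    pc a j 1 = j := by
  induction j with
  | zero => simp [pc, ps]
  | succ j ih =>
    have h0 : coeff 1 (ps a j ^ 1 * X ^ 1) = 0 := co_zero (pc_zero hu j) (by omega)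
    rw [pc_succ]
    simp only [sum_range_succ, range_zero, sum_empty, zero_add, h0, hs 0 1, hu]
    rw [pc] at ih
    simp [ih, add_comm]

/-- Evaluation of a power series at a nilpotent element. -/
def ev {x : U} {N : ℕ} (hx : x ^ N = 0) : PowerSeries U →+* U where
  toFun P := ∑ m ∈ range N, coeff m P * x ^ m
  map_zero' := by simp
  map_add' P Q := by simp [add_mul, sum_add_distrib]
  map_one' := by
    cases N with
    | zero => rw [pow_zero] at hx; simp [hx]
    | succ N => simp [coeff_one]
  map_mul' P Q := by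
    have h := fm_diag (fun i j => coeff i P * coeff j Q) x N hx
    rw [fm_eq _ x x N hx hx] at h
    rw [sum_mul_sum]
    refine (sum_congr rfl fun m _ => ?_).trans (h.symm.trans ?_)
    · rw [coeff_mul, Finset.Nat.sum_antidiagonal_eq_sum_range_succ_mk, wc]
    · exact sum_congr rfl fun i _ => sum_congr rfl fun j _ => by ring

theorem ev_apply {x : U} {N : ℕ} (hx : x ^ N = 0) (P : PowerSeries U) :
    ev hx P = ∑ m ∈ range N, coeff m P * x ^ m := rfl

theorem ev_X {x : U} {N : ℕ} (hx : x ^ N = 0) : ev hx X = x := by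
  rw [ev_apply]
  simp only [coeff_X, ite_mul, one_mul, zero_mul, sum_ite_eq', mem_range, pow_one]
  split_ifs with h
  · rfl
  · rw [← pow_one x, pow_eq_zero_of_le (by omega : N ≤ 1) hx]

theorem mul_ev (hu : ∀ i, a i 0 = if i = 1 then 1 else 0) {x : U} {N : ℕ} (hx : x ^ N = 0)
    (j : ℕ) : mul a j x = ev hx (ps a j) ∧ mul a j x ^ N = 0 := by
  have k : ∀ j, ev hx (ps a j) ^ N = 0 := fun j => by
    rw [← map_pow, ← mul_one (_ ^ N), ← pow_zero X, ev_apply]
    exact sum_eq_zero fun m hm => by
      rw [co_zero (pc_zero hu j) (mem_range.1 hm), zero_mul]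
  suffices mul a j x = ev hx (ps a j) from ⟨this, this ▸ k j⟩
  induction j with
  | zero => simp [mul, ps]
  | succ j ih =>
    have e : ∀ i l, a i l * (ev hx (ps a j) ^ i * x ^ l) =
        ∑ m ∈ range N, a i l * coeff m (ps a j ^ i * X ^ l) * x ^ m := fun i l => by
      have e0 : ev hx (ps a j) ^ i * x ^ l = ev hx (ps a j ^ i * X ^ l) := by
        rw [map_mul, map_pow, map_pow, ev_X]
      rw [e0, ev_apply, mul_sum]
      exact sum_congr rfl fun m _ => (mul_assoc _ _ _).symm
    rw [mul, ih, fm_eq a _ x N (k j) hx, ev_apply hx (ps a (j + 1))]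
    simp only [e]
    rw [sum_congr rfl fun i _ => sum_comm, sum_comm]
    refine sum_congr rfl fun m hm => ?_
    have hs : range (m + 1) ⊆ range N := range_subset_range.2 (mem_range.1 hm)
    rw [← pc, pc_succ, sum_mul]
    symm
    refine sum_subset_zero_on_sdiff hs (fun i hi => sum_eq_zero fun l _ => ?_) fun i _ => ?_
    · have : m < i + l := by
        have := (mem_sdiff.1 hi).2
        rw [mem_range] at this
        omega
      rw [co_zero (pc_zero hu j) this, mul_zero, zero_mul]
    · rw [sum_mul]
      refine sum_subset hs fun l _ hl => ?_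
      have : m < i + l := by
        rw [mem_range] at hl
        omega
      rw [co_zero (pc_zero hu j) this, mul_zero, zero_mul]

/-- The multiples of a nilpotent element as values of the series. -/
theorem mul_eq {A : Type 1} [CommRing A] (φ : U →+* A) (hu : ∀ i, a i 0 = if i = 1 then 1 else 0)
    {x : A} {N : ℕ} (hx : x ^ N = 0) (j : ℕ) :
    mul (cf φ a) j x = ∑ m ∈ range N, φ (pc a j m) * x ^ m := by
  rw [(mul_ev (fun i => by simp only [cf, hu]; split_ifs <;> simp) hx j).1, ev_apply]
  exact sum_congr rfl fun m _ => by rw [← pc_map, pc]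

theorem low_mul {S : Subring U} {m : ℕ} {P : PowerSeries U} (hP : ∀ n < m, coeff n P ∈ S)
    (i l : ℕ) : ∀ n < m + l, coeff n (P ^ i * X ^ l) ∈ S := by
  have h : ∀ n < m, coeff n (P ^ i) ∈ S := by
    induction i with
    | zero =>
      intro n _
      rw [pow_zero, coeff_one]
      split_ifs
      exacts [S.one_mem, S.zero_mem]
    | succ i ih =>
      intro n hn
      rw [pow_succ, coeff_mul]
      refine S.sum_mem fun q hq => ?_
      have := mem_antidiagonal.1 hq
      exact S.mul_mem (ih _ (by omega)) (hP _ (by omega))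
  intro n hn
  rw [coeff_mul_X_pow']
  split_ifs
  exacts [h _ (by omega), S.zero_mem]

theorem pc_low (hu : ∀ i, a i 0 = if i = 1 then 1 else 0) {S : Subring U} {m : ℕ}
    (hS : ∀ i l, i + l < m → a i l ∈ S) (j : ℕ) : ∀ n < m, pc a j n ∈ S := by
  induction j with
  | zero => exact fun n _ => by simp [pc, ps]
  | succ j ih =>
    intro n hn
    rw [pc_succ]
    refine S.sum_mem fun i _ => S.sum_mem fun l _ => ?_
    by_cases h : n < i + l
    · rw [co_zero (pc_zero hu j) h, mul_zero]
      exact S.zero_mem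
    · exact S.mul_mem (hS i l (by omega)) (low_mul ih i l n (by omega))

/-- The top part of a coefficient. -/
theorem pc_top (hu : ∀ i, a i 0 = if i = 1 then 1 else 0) (hs : ∀ i j, a i j = a j i)
    {S : Subring U} {m : ℕ} (hm : 2 ≤ m) (hS : ∀ i l, i + l < m → a i l ∈ S) (j : ℕ) :
    pc a j m - ∑ l ∈ range j, ∑ i ∈ range (m + 1), a i (m - i) * (l : U) ^ i ∈ S := by
  induction j with
  | zero => simp [pc, ps]
  | succ j ih =>
    have key : ∀ i ∈ range (m + 1), ∀ l ∈ range (m + 1), a i l * coeff m (ps a j ^ i * X ^ l) -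
        (if l = m - i then a i (m - i) * (j : U) ^ i else 0) -
        (if l = 0 then (if i = 1 then pc a j m else 0) else 0) ∈ S := by
      intro i hi l _
      have hi' := mem_range.1 hi
      by_cases h1 : l = m - i
      · have e := co_top (pc_zero hu j) i l
        rw [show i + l = m by omega, ← pc, pc_one hu hs] at e
        rw [if_pos h1, e, h1, sub_self, zero_sub]
        split_ifs with h2 h3
        · omega
        all_goals simp
      · rw [if_neg h1, sub_zero]
        by_cases h2 : l = 0
        · subst h2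
          rw [if_pos rfl, hu]
          split_ifs with h3
          · subst h3
            simp [pc]
          · simp
        · rw [if_neg h2, sub_zero]
          by_cases h : m < i + l
          · rw [co_zero (pc_zero hu j) h, mul_zero]
            exact S.zero_mem
          · exact S.mul_mem (hS i l (by omega)) (low_mul (pc_low hu hS j) i l m (by omega))
    have h := S.sum_mem fun i hi => S.sum_mem (key i hi)
    simp only [sum_sub_distrib, sum_ite_eq', mem_range, Nat.zero_lt_succ, if_true,
      show ∀ i, m - i < m + 1 from fun i => by omega, show 1 < m + 1 by omega] at h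
    rw [← pc_succ] at h
    rw [sum_range_succ]
    have := S.add_mem h ih
    rwa [show ∀ b c d e : U, b - c - d + (d - e) = b - (e + c) from fun _ _ _ _ => by ring] at this

/-- The coefficients are homogeneous. -/
theorem pc_deg (hu : ∀ i, a i 0 = if i = 1 then 1 else 0) {π : ℕ → U →+ U} (hπ : Grd π)
    (hd : ∀ i j d, i + j = d + 1 → π d (a i j) = a i j) (j d : ℕ) :
    π d (pc a j (d + 1)) = pc a j (d + 1) := by
  induction j generalizing d with
  | zero => simp [pc, ps]
  | succ j ih =>
    have h : ∀ i d, π d (coeff (d + i) (ps a j ^ i)) = coeff (d + i) (ps a j ^ i) := by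
      intro i
      induction i with
      | zero =>
        intro d
        rw [pow_zero, coeff_one]
        split_ifs with h
        · obtain rfl : d = 0 := by omega
          exact hπ.one
        · simp
      | succ i ihi =>
        intro d
        rw [pow_succ, coeff_mul, map_sum]
        refine sum_congr rfl fun q hq => ?_
        have e := mem_antidiagonal.1 hq
        by_cases h1 : q.1 < i
        · have := co_zero (pc_zero hu j) (m := q.1) (i := i) (l := 0) h1
          rw [pow_zero, mul_one] at this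
          simp [this]
        · by_cases h2 : q.2 = 0
          · have := pc_zero hu j
            rw [pc] at this
            simp [h2, -coeff_zero_eq_constantCoeff, this]
          · have a1 := ihi (q.1 - i)
            have a2 := ih (q.2 - 1)
            rw [show q.1 - i + i = q.1 by omega] at a1
            rw [show q.2 - 1 + 1 = q.2 by omega] at a2
            have := hπ.mul _ _ _ _ a1 a2
            rwa [show q.1 - i + (q.2 - 1) = d by omega] at this
    rw [pc_succ, map_sum]
    refine sum_congr rfl fun i _ => ?_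
    rw [map_sum]
    refine sum_congr rfl fun l _ => ?_
    by_cases h1 : d + 1 < i + l
    · simp [co_zero (pc_zero hu j) h1]
    · by_cases h2 : i + l = 0
      · obtain ⟨rfl, rfl⟩ : i = 0 ∧ l = 0 := by omega
        simp [hu]
      · have a1 := h i (d + 1 - (i + l))
        have := hπ.mul _ _ _ _ (hd i l (i + l - 1) (by omega)) a1
        rw [coeff_mul_X_pow', if_pos (by omega)]
        rwa [show i + l - 1 + (d + 1 - (i + l)) = d by omega,
          show d + 1 - (i + l) + i = d + 1 - l by omega] at this

/-- The linear terms. -/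
theorem pc_lin (hu : ∀ i, a i 0 = if i = 1 then 1 else 0) (hs : ∀ i j, a i j = a j i)
    {π : ℕ → U →+ U} (θ : U →+* MvPolynomial ℕ ℤ)
    (hd : ∀ i j d, i + j = d + 1 → π d (a i j) = a i j)
    (hθ : ∀ d u, π d u = u → (θ u).IsWeightedHomogeneous (fun n => n + 1) d)
    (lin : ∀ i j n, 1 ≤ i → 1 ≤ j → i + j = n + 2 →
      (θ (a i j)).coeff (Finsupp.single n 1) = ((n + 2).choose i : ℤ)) (j n : ℕ) :
    (θ (pc a j (n + 2))).coeff (Finsupp.single n 1) = (j : ℤ) ^ (n + 2) - j := by
  let S : Subring U := (MvPolynomial.supported ℤ {l : ℕ | l < n}).toSubring.comap θ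
  have hS : ∀ i l, i + l < n + 2 → a i l ∈ S := by
    intro i l h
    by_cases h2 : i + l = 0
    · obtain ⟨rfl, rfl⟩ : i = 0 ∧ l = 0 := by omega
      simp [hu]
    · refine MvPolynomial.mem_supported.2 fun k hk => ?_
      obtain ⟨e, he, hk⟩ := (MvPolynomial.mem_vars_iff_mem_support k).1 hk
      have a1 := hθ _ _ (hd i l (i + l - 1) (by omega)) (MvPolynomial.mem_support_iff.1 he)
      have a2 := Finsupp.le_weight_of_ne_zero' (fun n : ℕ => n + 1) (Finsupp.mem_support_iff.1 hk)
      show k < n
      omega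
  have h := MvPolynomial.mem_supported.1 (pc_top hu hs (by omega) hS j)
  have h0 : (θ (pc a j (n + 2) - ∑ l ∈ range j, ∑ i ∈ range (n + 2 + 1),
      a i (n + 2 - i) * (l : U) ^ i)).coeff (Finsupp.single n 1) = 0 := by
    by_contra hne
    exact lt_irrefl n (h ((MvPolynomial.mem_vars_iff_mem_support n).2
      ⟨_, MvPolynomial.mem_support_iff.2 hne, by simp⟩))
  rw [map_sub, MvPolynomial.coeff_sub, sub_eq_zero] at h0
  have e : ∀ l : ℕ, (θ (∑ i ∈ range (n + 2 + 1), a i (n + 2 - i) * (l : U) ^ i)).coeff
      (Finsupp.single n 1) = ((l + 1 : ℕ) : ℤ) ^ (n + 2) - (l : ℤ) ^ (n + 2) - 1 := by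
    intro l
    have c : ∀ i ∈ range (n + 1), (θ (a (i + 1) (n + 2 - (i + 1)) * (l : U) ^ (i + 1))).coeff
        (Finsupp.single n 1) = (l : ℤ) ^ (i + 1) * 1 ^ (n + 2 - (i + 1)) * (n + 2).choose (i + 1) := by
      intro i hi
      have := mem_range.1 hi
      rw [map_mul, map_pow, map_natCast, ← map_natCast (MvPolynomial.C : ℤ →+* MvPolynomial ℕ ℤ),
        ← map_pow, mul_comm, MvPolynomial.coeff_C_mul, lin _ _ n (by omega) (by omega) (by omega),
        one_pow, mul_one]
    rw [sum_range_succ, sum_range_succ', Nat.sub_self, hs 0, hu, hu, if_neg (by omega),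
      if_neg (by omega), zero_mul, zero_mul, add_zero, add_zero, map_sum, MvPolynomial.coeff_sum,
      sum_congr rfl c, Nat.cast_succ, add_pow, sum_range_succ _ (n + 2), sum_range_succ' _ (n + 1)]
    simp only [Nat.sub_self, pow_zero, one_pow, Nat.choose_self, Nat.choose_zero_right,
      Nat.cast_one, mul_one]
    ring
  rw [h0, map_sum, MvPolynomial.coeff_sum, sum_congr rfl fun l _ => e l, sum_sub_distrib,
    sum_range_sub fun l : ℕ => (l : ℤ) ^ (n + 2)]
  simp

end

end Pool.Agent.MP_826def_gt.PG
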